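import Pool.Agent.Q253.Thin.Recip
import Pool.Agent.Q253.Thin.GoldSample

/-!
# Every even `N`: the same prime factors `q` at a positive proportion of all scales between `√N` and `N / 2`

Let `N` be even, `s ∈ {2, -2}` with `3 ∣ N` or `3 ∣ N + s`. At every scale `2 ^ j` between `√N` and `N / 4` there is the
expected number of primes `p ∈ (2 ^ j, 2 ^ (j + 1)]` such that `p + s` is a prime or a product of two primes and `N - p` is an
almost prime. We show: either at half of all the scales there is the right number of such `p` with `p + s` prime, or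
there are `k` primes `q_i` in an arithmetic progression with a small difference such that every `q_i` works at
a positive proportion of ALL scales: `p + s = q_i p'` for the expected number of the primes `p`.

Libraries: `Y840.CT.GenF` (Chen's theorem for systems of shifts), `Y151.HS.FLC` (fundamental lemma in residue classes),
`Y843.HS.Top` (Szemerédi's theorem relative to sifted sets), all starting files.
-/

set_option autoImplicit false

namespace Pool.Agent.Results.MP_33f996_nt.AllScales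

open Finset Filter
open Pool.Agent.Y840.CT Pool.Agent.Q253.Thin

/-- the sign `s` fits to `N`: `s = 2` or `s = -2`, and `3` divides `N` or `N + s` -/
def Fit (N s : ℤ) : Prop := (s = 2 ∨ s = -2) ∧ ((3 : ℤ) ∣ N ∨ (3 : ℤ) ∣ N + s)

theorem fit_exists (N : ℤ) : ∃ s : ℤ, Fit N s := by
  have h3 : N % 3 = 0 ∨ N % 3 = 1 ∨ N % 3 = 2 := by omega
  rcases h3 with h | h | h
  · exact ⟨2, Or.inl rfl, Or.inl (by omega)⟩
  · exact ⟨2, Or.inl rfl, Or.inr (by omega)⟩
  · exact ⟨-2, Or.inr rfl, Or.inr (by omega)⟩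

/-- the scales `j` with `√N < 2 ^ j ≤ N / 4`, in terms of `L = ⌊log N / log 2⌋` -/
def Scales (N : ℕ) : Finset ℕ := Icc (Nat.log 2 N / 2 + 1) (Nat.log 2 N - 2)

/-- `m` has no prime factor `≤ z` -/
def Free (z : ℝ) (m : ℤ) : Prop := ∀ q : ℕ, q.Prime → (q : ℤ) ∣ m → z < q

/-- `n` is a prime or a product of two primes, and all its prime factors are larger than `z` -/
def AlmostPrime (z : ℝ) (n : ℕ) : Prop :=
  (n.Prime ∨ ∃ a b : ℕ, a.Prime ∧ b.Prime ∧ n = a * b) ∧ ∀ q : ℕ, q.Prime → q ∣ n → z < q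

open Classical in
/-- the primes `p` with `2 ^ j < p ≤ 2 ^ (j + 1)` such that `p (p + s) (N - p)` has no prime factor `≤ N ^ (1/K)` -/
noncomputable def Win (K N j : ℕ) (s : ℤ) : Finset ℕ :=
  (Ioc (2 ^ j) (2 ^ (j + 1))).filter (fun p => p.Prime ∧ Free ((N : ℝ) ^ (1 / (K : ℝ))) (p * (p + s) * (N - p)))

open Classical in
/-- the primes of `Win` such that `p + s` is a prime or a product of two primes `> N ^ (1/18)` -/
noncomputable def Chen (K N j : ℕ) (s : ℤ) : Finset ℕ :=
  (Win K N j s).filter (fun p => AlmostPrime ((N : ℝ) ^ (1 / 18 : ℝ)) ((p : ℤ) + s).natAbs)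

open Classical in
/-- the primes of `Win` such that `p + s` is a prime -/
noncomputable def Twin (K N j : ℕ) (s : ℤ) : Finset ℕ :=
  (Win K N j s).filter (fun p => ((p : ℤ) + s).natAbs.Prime)

open Classical in
/-- the primes of `Win` such that `p + s = q p'` with a prime `p' ≥ q` -/
noncomputable def WithFactor (q K N j : ℕ) (s : ℤ) : Finset ℕ :=
  (Win K N j s).filter (fun p => ∃ p' : ℕ, p'.Prime ∧ q ≤ p' ∧ (p : ℤ) + s = q * p')

open Classical in
/-- the scales with at least `c 2 ^ j / log ^ 3 N` primes `p` such that `p + s` is a prime -/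
noncomputable def TwinScales (c : ℝ) (K N : ℕ) (s : ℤ) : Finset ℕ :=
  (Scales N).filter (fun j => c * (2 ^ j / Real.log N ^ 3) ≤ ((Twin K N j s).card : ℝ))

open Classical in
/-- the scales with at least `c 2 ^ j / (q log ^ 3 N)` primes `p` such that `p + s = q p'`, `p' ≥ q` prime -/
noncomputable def FactorScales (c : ℝ) (q K N : ℕ) (s : ℤ) : Finset ℕ :=
  (Scales N).filter (fun j => c * (2 ^ j / (q * Real.log N ^ 3)) ≤ ((WithFactor q K N j s).card : ℝ))

lemma rho_lt {N : ℕ} (hN : Even N) {s : ℤ} (hf : Fit N s) {q : ℕ} (hq : q.Prime) : rho {-s, (N : ℤ)} q < q := by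
  obtain ⟨h1, h2⟩ := hf
  have hNe : (2 : ℤ) ∣ N := by exact_mod_cast hN.two_dvd
  have hcard : rho {-s, (N : ℤ)} q ≤ 3 := by
    unfold rho
    refine card_image_le.trans ((card_insert_le _ _).trans ?_)
    have : ({-s, (N : ℤ)} : Finset ℤ).card ≤ 2 := card_le_two
    omega
  rcases Nat.lt_or_ge q 4 with h5 | h5
  · interval_cases q
    · exact absurd hq Nat.not_prime_zero
    · exact absurd hq Nat.not_prime_one
    · have : (insert 0 ({-s, (N : ℤ)} : Finset ℤ)).image (fun h : ℤ => h % ((2 : ℕ) : ℤ)) ⊆ {0} := by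
        intro z hz
        rw [mem_image] at hz
        obtain ⟨h, hh, rfl⟩ := hz
        simp only [mem_insert, mem_singleton] at hh
        rw [mem_singleton]
        push_cast
        rcases h1 with rfl | rfl <;> rcases hh with rfl | rfl | rfl <;> omega
      have := card_le_card this
      unfold rho
      rw [card_singleton] at this
      omega
    · have : (insert 0 ({-s, (N : ℤ)} : Finset ℤ)).image (fun h : ℤ => h % ((3 : ℕ) : ℤ)) ⊆ {0, (-s) % 3} := by
        intro z hz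
        rw [mem_image] at hz
        obtain ⟨h, hh, rfl⟩ := hz
        simp only [mem_insert, mem_singleton] at hh
        rw [mem_insert, mem_singleton]
        push_cast
        rcases h1 with rfl | rfl <;> rcases hh with rfl | rfl | rfl <;> omega
      have h6 := card_le_card this
      have h7 : ({0, (-s) % 3} : Finset ℤ).card ≤ 2 := card_le_two
      unfold rho
      omega
  · omega

lemma sys {N X : ℕ} (hN : Even N) (hX : 2 ≤ X) {s : ℤ} (hf : Fit N s) : SysF 2 X (fun _ => {-s, (N : ℤ)}) (-s) where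
  card q _ := card_le_two
  ne := by
    rcases hf.1 with rfl | rfl <;> norm_num
  size := by
    rcases hf.1 with rfl | rfl <;> norm_num <;> exact hX
  mem q _ := by simp
  loc q hq := rho_lt hN hf hq

lemma scales_mem {N j : ℕ} (hN : 64 ≤ N) (hj : j ∈ Scales N) : N < (2 ^ j) ^ 2 ∧ 2 ^ (j + 2) ≤ N := by
  unfold Scales at hj
  rw [mem_Icc] at hj
  have h1 : N < 2 ^ (Nat.log 2 N + 1) := Nat.lt_pow_succ_log_self (by norm_num) N
  have h2 : 2 ^ Nat.log 2 N ≤ N := Nat.pow_log_le_self 2 (by omega)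
  have h3 : 6 ≤ Nat.log 2 N := (Nat.le_log_iff_pow_le (by norm_num) (by omega)).2 (by norm_num; exact hN)
  constructor
  · rw [← pow_mul]
    exact h1.trans_le (Nat.pow_le_pow_right (by norm_num) (by omega))
  · exact (Nat.pow_le_pow_right (by norm_num) (by omega)).trans h2

lemma scales_card {N : ℕ} (hN : 2 ^ 24 ≤ N) : Real.log N / 2 ≤ (Scales N).card := by
  unfold Scales
  rw [Nat.card_Icc]
  set L := Nat.log 2 N with hL
  have h3 : 24 ≤ L := (Nat.le_log_iff_pow_le (by norm_num) (by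
    have : 0 < 2 ^ 24 := by positivity
    omega)).2 hN
  have h1 : N < 2 ^ (L + 1) := Nat.lt_pow_succ_log_self (by norm_num) N
  have h4 : ((N : ℕ) : ℝ) ≤ 2 ^ (L + 1) := by exact_mod_cast h1.le
  have hN0 : (0 : ℝ) < N := by
    have : 0 < 2 ^ 24 := by positivity
    exact_mod_cast (by omega : 0 < N)
  have h5 := Real.log_le_log hN0 h4
  rw [Real.log_pow] at h5
  have h6 := Real.log_two_lt_d9
  have h7 : ((L : ℝ) - 4) / 2 ≤ ((L - 2 + 1 - (L / 2 + 1) : ℕ) : ℝ) := by
    have h8 : L - 4 ≤ 2 * (L - 2 + 1 - (L / 2 + 1)) := by omega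
    have h9 : ((L - 4 : ℕ) : ℝ) ≤ ((2 * (L - 2 + 1 - (L / 2 + 1)) : ℕ) : ℝ) := by exact_mod_cast h8
    rw [Nat.cast_sub (by omega), Nat.cast_mul] at h9
    push_cast at h9 ⊢
    linarith
  have h10 : (24 : ℝ) ≤ L := by exact_mod_cast h3
  push_cast at h5
  nlinarith

/-- the good primes of the sieve are in the window -/
lemma mem_good {t N j : ℕ} (ht : 1 ≤ t) (hN : 64 ≤ N) (hj : j ∈ Scales N) {s : ℤ} (hs : s = 2 ∨ s = -2) {p : ℕ}
    (hp : p ∈ GoodF t (2 ^ (j + 1)) (2 ^ j) (2 ^ (j + 1)) (fun _ => {-s, (N : ℤ)}) (-s)) :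
    p ∈ Chen (2 * t) N j s ∧ (-s - (p : ℤ)).natAbs = ((p : ℤ) + s).natAbs ∧ 2 < p := by
  classical
  obtain ⟨m1, m2⟩ := scales_mem hN hj
  unfold GoodF at hp
  rw [mem_filter, mem_Ioc] at hp
  obtain ⟨⟨p1, p2⟩, pp, pt, ⟨pr1, pr2, pr3⟩, pF⟩ := hp
  have hN0 : (0 : ℝ) < N := by exact_mod_cast (by omega : 0 < N)
  have hlow : (N : ℝ) ^ (1 / 2 : ℝ) ≤ ((2 ^ (j + 1) : ℕ) : ℝ) := by
    rw [← Real.sqrt_eq_rpow, Real.sqrt_le_left (by positivity)]
    have h1 : N ≤ (2 ^ (j + 1)) ^ 2 := by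
      have e1 : 2 ^ (j + 1) = 2 ^ j * 2 := pow_succ _ _
      rw [e1]
      nlinarith
    exact_mod_cast h1
  have hz : (N : ℝ) ^ (1 / ((2 * t : ℕ) : ℝ)) ≤ ((2 ^ (j + 1) : ℕ) : ℝ) ^ (1 / (t : ℝ)) := by
    have h1 := Real.rpow_le_rpow (by positivity) hlow (show (0 : ℝ) ≤ 1 / (t : ℝ) by positivity)
    rw [← Real.rpow_mul hN0.le] at h1
    convert h1 using 2
    push_cast
    field_simp
  have hz9 : (N : ℝ) ^ (1 / 18 : ℝ) ≤ ((2 ^ (j + 1) : ℕ) : ℝ) ^ (1 / 9 : ℝ) := by
    have h1 := Real.rpow_le_rpow (by positivity) hlow (show (0 : ℝ) ≤ 1 / 9 by positivity)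
    rw [← Real.rpow_mul hN0.le] at h1
    norm_num at h1 ⊢
    exact h1
  have h8 : 8 < 2 ^ j := by
    by_contra hcon
    push Not at hcon
    have : (2 ^ j) ^ 2 ≤ 8 ^ 2 := Nat.pow_le_pow_left hcon 2
    omega
  have e : (-s - (p : ℤ)).natAbs = ((p : ℤ) + s).natAbs := by
    rw [← Int.natAbs_neg]
    congr 1
    ring
  refine ⟨?_, e, by omega⟩
  unfold Chen
  rw [mem_filter]
  constructor
  · unfold Win
    rw [mem_filter, mem_Ioc]
    refine ⟨⟨p1, p2⟩, pp, ?_⟩
    intro q hq hd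
    by_contra hcon
    push Not at hcon
    have hqz := hcon.trans hz
    have hqp : Prime (q : ℤ) := Nat.prime_iff_prime_int.1 hq
    rcases hqp.dvd_mul.1 hd with hd | hd
    · rcases hqp.dvd_mul.1 hd with hd | hd
      · have h3 : q ∣ p := by exact_mod_cast hd
        have h4 := (Nat.prime_dvd_prime_iff_eq hq pp).1 h3
        rw [h4] at hqz
        linarith
      · apply pF q hq hqz (-s) (by simp)
        have : (-s : ℤ) - p = -((p : ℤ) + s) := by ring
        rw [this]
        exact (dvd_neg).2 hd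
    · exact pF q hq hqz N (by simp) hd
  · have hn : 1 < ((p : ℤ) + s).natAbs := by
      rcases hs with rfl | rfl <;> omega
    refine ((P2_iff hn _).2 ⟨by rw [← e]; exact pr2, fun q hq hd => lt_of_le_of_lt hz9 (pr3 q hq ?_)⟩ :
      P2 ((N : ℝ) ^ (1 / 18 : ℝ)) ((p : ℤ) + s).natAbs)
    rw [Int.natCast_dvd, e]
    exact hd

/-- **The same factors at a positive proportion of all scales.** There are `K`, `c, η > 0` such that for all `k` there are
`D`, `N₀` such that for EVERY even `N ≥ N₀` and every `s ∈ {2, -2}` which fits to `N` modulo `3` (there is one for every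
`N`): there are at least `log N / 2` scales `j`, with `√N < 2 ^ j` and `2 ^ (j + 1) ≤ N / 2`;

(1) at EVERY scale `Chen K N j s` has at least `c 2 ^ j / log ^ 3 N` elements;

(2) either `Twin K N j s` has at least `c 2 ^ j / log ^ 3 N` elements for at least half of the scales, or there are
`k` primes `q_i = q + i d > N ^ (1/18)` in an arithmetic progression, `d ≤ log ^ D N`, such that for every `i` the set
`WithFactor q_i K N j s` has at least `c 2 ^ j / (q_i log ^ 3 N)` elements for at least the proportion `η` of the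
scales. -/
theorem result : (∀ N : ℤ, ∃ s : ℤ, Fit N s) ∧
    ∃ (K : ℕ) (c η : ℝ), 1 ≤ K ∧ 0 < c ∧ 0 < η ∧ ∀ k : ℕ, ∃ D N₀ : ℕ, ∀ N : ℕ, N₀ ≤ N → Even N →
      ∀ s : ℤ, Fit N s →
      (Real.log N / 2 ≤ (Scales N).card ∧ ∀ j ∈ Scales N, Real.sqrt N < 2 ^ j ∧ (2 : ℝ) ^ (j + 1) ≤ N / 2) ∧
      (∀ j ∈ Scales N, c * (2 ^ j / Real.log N ^ 3) ≤ (Chen K N j s).card) ∧
      ((Scales N).card ≤ 2 * (TwinScales c K N s).card ∨
        ∃ q d : ℕ, 1 ≤ d ∧ (d : ℝ) ≤ Real.log N ^ D ∧ ∀ i < k, (q + i * d).Prime ∧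
          (N : ℝ) ^ (1 / 18 : ℝ) < ((q + i * d : ℕ) : ℝ) ∧
          η * ((Scales N).card : ℝ) ≤ ((FactorScales c (q + i * d) K N s).card : ℝ)) := by
  classical
  refine ⟨fit_exists, ?_⟩
  obtain ⟨t0, ht0, c0, hc0, hgen, -⟩ := genF 2
  obtain ⟨t1, ht1, c1, hc1, ρ, hρ, hdich⟩ := dich 2
  obtain ⟨cV, hcV, hVlow⟩ := VF_low 2
  obtain ⟨M, hM, hmert⟩ := mert
  set t := max t0 t1 with ht
  have hm0 : 0 < min c0 c1 := lt_min hc0 hc1
  refine ⟨2 * t, min c0 c1 * cV, ρ / (4 * M), by omega, by positivity, by positivity, ?_⟩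
  intro k
  obtain ⟨X₁, hX₁⟩ := hgen (1 / 2) (by norm_num)
  obtain ⟨X₂, hX₂⟩ := hdich (1 / 2) (by norm_num)
  obtain ⟨D, X₃, hX₃⟩ := recip_ap k 18 (by norm_num) (ρ / 2) (by positivity)
  refine ⟨D, max (max (X₁ ^ 2) (X₂ ^ 2)) (max X₃ (2 ^ 40)), ?_⟩
  intro N hN hNe s hf
  have n1 : X₁ ^ 2 ≤ N := (le_max_left _ _).trans ((le_max_left _ _).trans hN)
  have n2 : X₂ ^ 2 ≤ N := (le_max_right _ _).trans ((le_max_left _ _).trans hN)
  have n3 : X₃ ≤ N := (le_max_left _ _).trans ((le_max_right _ _).trans hN)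
  have n4 : 2 ^ 40 ≤ N := (le_max_right _ _).trans ((le_max_right _ _).trans hN)
  have n5 : 64 ≤ N := le_trans (by norm_num) n4
  have hNr : (64 : ℝ) ≤ N := by exact_mod_cast n5
  have hN0 : (0 : ℝ) < N := by linarith
  have hlN : 0 < Real.log N := Real.log_pos (by linarith)
  have hsc : ∀ j ∈ Scales N, ∀ a : ℕ, a ^ 2 ≤ N → a ≤ 2 ^ (j + 1) := by
    intro j hj a ha
    obtain ⟨m1, m2⟩ := scales_mem n5 hj
    have : a < 2 ^ j := by
      by_contra hcon
      push Not at hcon
      have := Nat.pow_le_pow_left hcon 2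
      omega
    rw [pow_succ]
    omega
  have hVj : ∀ j ∈ Scales N, cV / Real.log N ^ 3 ≤ VF (fun _ => {-s, (N : ℤ)}) (2 ^ (j + 1)) ∧ 2 ≤ 2 ^ (j + 1) := by
    intro j hj
    obtain ⟨m1, m2⟩ := scales_mem n5 hj
    have h2 : 2 ≤ 2 ^ (j + 1) := by
      rw [pow_succ]
      have : 0 < 2 ^ j := by positivity
      omega
    have hsys := sys (N := N) (X := 2 ^ (j + 1)) hNe h2 hf
    refine ⟨le_trans ?_ (hVlow (2 ^ (j + 1)) h2 _ hsys.card hsys.loc), h2⟩
    have hl : 0 < Real.log ((2 ^ (j + 1) : ℕ) : ℝ) := Real.log_pos (by exact_mod_cast h2)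
    apply div_le_div_of_nonneg_left hcV.le (by positivity)
    apply pow_le_pow_left₀ hl.le
    apply Real.log_le_log (by positivity)
    have : 2 ^ (j + 1) ≤ N := by
      refine le_trans ?_ m2
      exact Nat.pow_le_pow_right (by norm_num) (by omega)
    exact_mod_cast this
  have hAB : ∀ j : ℕ, (1 / 2 : ℝ) * ((2 ^ (j + 1) : ℕ) : ℝ) ≤ ((2 ^ (j + 1) : ℕ) : ℝ) - ((2 ^ j : ℕ) : ℝ) := by
    intro j
    push_cast
    rw [pow_succ]
    have : (0 : ℝ) < 2 ^ j := by positivity
    linarith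
  have hABe : ∀ j : ℕ, ((2 ^ (j + 1) : ℕ) : ℝ) - ((2 ^ j : ℕ) : ℝ) = 2 ^ j := by
    intro j
    push_cast
    rw [pow_succ]
    ring
  have hbase : ∀ {c' : ℝ}, min c0 c1 ≤ c' → ∀ j ∈ Scales N, ∀ q : ℝ, 0 < q →
      min c0 c1 * cV * (2 ^ j / (q * Real.log N ^ 3)) ≤
      c' * ((((2 ^ (j + 1) : ℕ) : ℝ) - ((2 ^ j : ℕ) : ℝ)) * VF (fun _ => {-s, (N : ℤ)}) (2 ^ (j + 1)) / q) := by
    intro c' hc' j hj q hq
    rw [mul_assoc, hABe]
    apply mul_le_mul hc' _ (by positivity) (hm0.le.trans hc')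
    have h1 : (2 : ℝ) ^ j * (cV / Real.log N ^ 3) ≤ 2 ^ j * VF (fun _ => {-s, (N : ℤ)}) (2 ^ (j + 1)) :=
      mul_le_mul_of_nonneg_left (hVj j hj).1 (by positivity)
    refine le_trans (le_of_eq ?_) (div_le_div_of_nonneg_right h1 hq.le)
    field_simp
  refine ⟨⟨scales_card (le_trans (by norm_num) n4), ?_⟩, ?_, ?_⟩
  · intro j hj
    obtain ⟨m1, m2⟩ := scales_mem n5 hj
    constructor
    · rw [Real.sqrt_lt' (by positivity)]
      exact_mod_cast m1
    · have : ((2 ^ (j + 2) : ℕ) : ℝ) ≤ N := by exact_mod_cast m2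
      push_cast at this
      rw [pow_succ] at this
      linarith
  · intro j hj
    have hsys := sys (N := N) (X := 2 ^ (j + 1)) hNe (hVj j hj).2 hf
    have h1 := hX₁ (2 ^ (j + 1)) (hsc j hj _ n1) _ _ hsys (2 ^ j) (2 ^ (j + 1)) le_rfl (hAB j)
    have h2 := hbase (min_le_left c0 c1) j hj 1 one_pos
    rw [one_mul, div_one] at h2
    have h3 : ((GoodF t0 (2 ^ (j + 1)) (2 ^ j) (2 ^ (j + 1)) (fun _ => {-s, (N : ℤ)}) (-s)).card : ℝ) ≤
        (Chen (2 * t) N j s).card := by
      have h4 := card_le_card (GoodF_t (X := 2 ^ (j + 1)) (A := 2 ^ j) (B := 2 ^ (j + 1)) ht0 (le_max_left t0 t1)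
        (by have := (hVj j hj).2; omega) (fun _ => {-s, (N : ℤ)}) (-s))
      have h5 : GoodF t (2 ^ (j + 1)) (2 ^ j) (2 ^ (j + 1)) (fun _ => {-s, (N : ℤ)}) (-s) ⊆ Chen (2 * t) N j s :=
        fun p hp => (mem_good (by omega) n5 hj hf.1 hp).1
      exact_mod_cast h4.trans (card_le_card h5)
    refine h2.trans (le_trans (le_of_eq ?_) (h1.trans h3))
    ring
  · by_cases hcase : (Scales N).card ≤ 2 * (TwinScales (min c0 c1 * cV) (2 * t) N s).card
    · left
      exact hcase
    right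
    push Not at hcase
    set J1 := (Scales N).filter (fun j => ¬ (min c0 c1 * cV * (2 ^ j / Real.log N ^ 3) ≤ ((Twin (2 * t) N j s).card : ℝ)))
      with hJ1
    have hJ1c : (Scales N).card ≤ 2 * J1.card := by
      have h1 : (TwinScales (min c0 c1 * cV) (2 * t) N s).card + J1.card = (Scales N).card := by
        rw [hJ1]
        unfold TwinScales
        exact card_filter_add_card_filter_not _
      omega
    have hScpos : 0 < (Scales N).card := by
      have h1 := scales_card (N := N) (le_trans (by norm_num) n4)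
      have h2 : (0 : ℝ) < (Scales N).card := lt_of_lt_of_le (by positivity) h1
      exact_mod_cast h2
    -- the good factors
    set GD : ℕ → Finset ℕ := fun j => Gd c1 t1 (2 ^ (j + 1)) (2 ^ j) (2 ^ (j + 1)) (fun _ => {-s, (N : ℤ)}) (-s) with hGD
    have hGDm : ∀ j ∈ Scales N, ∀ q ∈ GD j, q.Prime ∧ (N : ℝ) ^ (1 / 18 : ℝ) < q ∧ q ≤ Nat.sqrt N ∧
        min c0 c1 * cV * (2 ^ j / (q * Real.log N ^ 3)) ≤ ((WithFactor q (2 * t) N j s).card : ℝ) := by
      intro j hj q hq
      obtain ⟨m1, m2⟩ := scales_mem n5 hj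
      rw [hGD] at hq
      simp only at hq
      unfold Gd at hq
      rw [mem_filter] at hq
      obtain ⟨_, ⟨a1, a2⟩, a3, a4⟩ := hq
      have hq0 : (0 : ℝ) < q := by exact_mod_cast a1.pos
      refine ⟨a1, ?_, ?_, ?_⟩
      · refine lt_of_le_of_lt ?_ a2
        have h1 : (N : ℝ) ^ (1 / 2 : ℝ) ≤ ((2 ^ (j + 1) : ℕ) : ℝ) := by
          rw [← Real.sqrt_eq_rpow, Real.sqrt_le_left (by positivity)]
          have h1 : N ≤ (2 ^ (j + 1)) ^ 2 := by
            have e1 : 2 ^ (j + 1) = 2 ^ j * 2 := pow_succ _ _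
            rw [e1]
            nlinarith
          exact_mod_cast h1
        have h2 := Real.rpow_le_rpow (by positivity) h1 (show (0 : ℝ) ≤ 1 / 9 by positivity)
        rw [← Real.rpow_mul hN0.le] at h2
        norm_num at h2 ⊢
        exact h2
      · rw [Nat.le_sqrt]
        have : 2 * 2 ^ (j + 1) = 2 ^ (j + 2) := by ring
        nlinarith
      · refine (hbase (min_le_right c0 c1) j hj _ hq0).trans (a4.trans ?_)
        have : (RF t1 (2 ^ (j + 1)) (2 ^ j) (2 ^ (j + 1)) (fun _ => {-s, (N : ℤ)}) (-s) q).card ≤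
            (WithFactor q (2 * t) N j s).card := by
          apply card_le_card
          intro p hp
          unfold RF at hp
          rw [mem_filter] at hp
          obtain ⟨hp1, q', hq', hqq', hpq⟩ := hp
          have hp2 := GoodF_t ht1 (le_max_right t0 t1) (by have := (hVj j hj).2; omega) _ _ hp1
          obtain ⟨b1, b2, b3⟩ := mem_good (by omega) n5 hj hf.1 hp2
          unfold WithFactor
          rw [mem_filter]
          refine ⟨(mem_filter.1 b1).1, q', hq', hqq', ?_⟩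
          rw [b2] at hpq
          have h5 : 0 ≤ (p : ℤ) + s := by
            rcases hf.1 with rfl | rfl <;> omega
          have h6 : ((((p : ℤ) + s).natAbs : ℕ) : ℤ) = (p : ℤ) + s := Int.natAbs_of_nonneg h5
          rw [← h6, hpq]
          push_cast
          ring
        exact_mod_cast this
    have hsum : ∀ j ∈ J1, ρ ≤ ∑ q ∈ GD j, (1 : ℝ) / q := by
      intro j hj
      rw [hJ1, mem_filter] at hj
      obtain ⟨hj, hnot⟩ := hj
      have hsys := sys (N := N) (X := 2 ^ (j + 1)) hNe (hVj j hj).2 hf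
      rcases hX₂ (2 ^ (j + 1)) (hsc j hj _ n2) _ _ hsys (2 ^ j) (2 ^ (j + 1)) le_rfl (hAB j) with h | h
      · exfalso
        apply hnot
        have h2 := hbase (min_le_right c0 c1) j hj 1 one_pos
        rw [one_mul, div_one] at h2
        refine h2.trans (h.trans ?_)
        have : (PF t1 (2 ^ (j + 1)) (2 ^ j) (2 ^ (j + 1)) (fun _ => {-s, (N : ℤ)}) (-s)).card ≤ (Twin (2 * t) N j s).card := by
          apply card_le_card
          intro p hp
          unfold PF at hp
          rw [mem_filter] at hp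
          have hp2 := GoodF_t ht1 (le_max_right t0 t1) (by have := (hVj j hj).2; omega) _ _ hp.1
          obtain ⟨b1, b2, b3⟩ := mem_good (by omega) n5 hj hf.1 hp2
          unfold Twin
          rw [mem_filter]
          refine ⟨(mem_filter.1 b1).1, ?_⟩
          rw [← b2]
          exact hp.2
        exact_mod_cast this
      · exact h
    set Y := Nat.sqrt N with hY
    set Ω := (Icc 1 (2 * Y)).filter (fun q : ℕ => q.Prime ∧ (Y : ℝ) ^ (1 / 9 : ℝ) < q) with hΩ
    have hYle : (Y : ℝ) ≤ (N : ℝ) ^ (1 / 2 : ℝ) := by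
      rw [← Real.sqrt_eq_rpow]
      exact Real.nat_sqrt_le_real_sqrt
    have hY9 : (Y : ℝ) ^ (1 / 9 : ℝ) ≤ (N : ℝ) ^ (1 / 18 : ℝ) := by
      have h2 := Real.rpow_le_rpow (Nat.cast_nonneg _) hYle (show (0 : ℝ) ≤ 1 / 9 by positivity)
      rw [← Real.rpow_mul hN0.le] at h2
      norm_num at h2 ⊢
      exact h2
    have hMΩ : ∑ q ∈ Ω, (1 : ℝ) / q ≤ M := by
      apply hmert
      rw [hY, Nat.le_sqrt]
      exact le_trans (by norm_num) n4
    have hGDΩ : ∀ j ∈ J1, GD j ⊆ Ω := by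
      intro j hj q hq
      obtain ⟨a1, a2, a3, _⟩ := hGDm j (mem_filter.1 hj).1 q hq
      rw [hΩ, mem_filter, mem_Icc]
      exact ⟨⟨a1.one_lt.le, by omega⟩, a1, lt_of_le_of_lt hY9 a2⟩
    set η : ℝ := ρ / (4 * M) with hη
    set G := Ω.filter (fun q => η * ((Scales N).card : ℝ) ≤ ((J1.filter (fun j => q ∈ GD j)).card : ℝ)) with hG
    have hdc : ∑ j ∈ J1, ∑ q ∈ GD j, (1 : ℝ) / q = ∑ q ∈ Ω, (1 : ℝ) / q * ((J1.filter (fun j => q ∈ GD j)).card : ℝ) := by
      have e1 : ∀ j ∈ J1, ∑ q ∈ GD j, (1 : ℝ) / q = ∑ q ∈ Ω, if q ∈ GD j then (1 : ℝ) / q else 0 := by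
        intro j hj
        rw [← sum_filter]
        congr 1
        ext q
        rw [mem_filter]
        exact ⟨fun h => ⟨hGDΩ j hj h, h⟩, fun h => h.2⟩
      rw [sum_congr rfl e1, sum_comm]
      apply sum_congr rfl
      intro q _
      rw [← sum_filter, sum_const, nsmul_eq_mul, mul_comm]
    have hJr : ((Scales N).card : ℝ) ≤ 2 * (J1.card : ℝ) := by exact_mod_cast hJ1c
    have hScr : (0 : ℝ) < (Scales N).card := by exact_mod_cast hScpos
    have hlow : ρ * (J1.card : ℝ) ≤ ∑ j ∈ J1, ∑ q ∈ GD j, (1 : ℝ) / q := by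
      have := sum_le_sum hsum
      rw [sum_const, nsmul_eq_mul] at this
      linarith
    have hup : ∑ q ∈ Ω, (1 : ℝ) / q * ((J1.filter (fun j => q ∈ GD j)).card : ℝ) ≤
        (J1.card : ℝ) * ∑ q ∈ G, (1 : ℝ) / q + η * ((Scales N).card : ℝ) * M := by
      rw [← sum_filter_add_sum_filter_not Ω (fun q => η * ((Scales N).card : ℝ) ≤ ((J1.filter (fun j => q ∈ GD j)).card : ℝ))]
      apply add_le_add
      · rw [mul_sum]
        apply sum_le_sum
        intro q _
        rw [mul_comm]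
        apply mul_le_mul_of_nonneg_right _ (by positivity)
        exact_mod_cast card_filter_le _ _
      · calc _ ≤ ∑ q ∈ Ω.filter (fun q => ¬ η * ((Scales N).card : ℝ) ≤ ((J1.filter (fun j => q ∈ GD j)).card : ℝ)),
              (1 : ℝ) / q * (η * ((Scales N).card : ℝ)) := by
              apply sum_le_sum
              intro q hq
              have := (mem_filter.1 hq).2
              push Not at this
              exact mul_le_mul_of_nonneg_left this.le (by positivity)
          _ ≤ ∑ q ∈ Ω, (1 : ℝ) / q * (η * ((Scales N).card : ℝ)) := by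
              apply sum_le_sum_of_subset_of_nonneg (filter_subset _ _)
              intro q _ _
              positivity
          _ = (∑ q ∈ Ω, (1 : ℝ) / q) * (η * ((Scales N).card : ℝ)) := by rw [sum_mul]
          _ ≤ M * (η * ((Scales N).card : ℝ)) := mul_le_mul_of_nonneg_right hMΩ (by positivity)
          _ = _ := by ring
    have hJ0 : (0 : ℝ) < J1.card := by linarith
    have hGsum : ρ / 2 ≤ ∑ q ∈ G, (1 : ℝ) / q := by
      rw [hdc] at hlow
      have h1 := hlow.trans hup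
      have h2 : η * ((Scales N).card : ℝ) * M ≤ ρ / 2 * J1.card := by
        rw [hη]
        have h3 : ρ / (4 * M) * ((Scales N).card : ℝ) * M = ρ / 4 * (Scales N).card := by
          field_simp
        rw [h3]
        nlinarith
      have h4 : (J1.card : ℝ) * (ρ / 2) ≤ (J1.card : ℝ) * ∑ q ∈ G, (1 : ℝ) / q := by linarith
      exact le_of_mul_le_mul_left h4 hJ0
    have hGm : ∀ q ∈ G, q.Prime ∧ (N : ℝ) ^ (1 / 18 : ℝ) < q ∧ q ≤ Nat.sqrt N ∧
        η * ((Scales N).card : ℝ) ≤ ((FactorScales (min c0 c1 * cV) q (2 * t) N s).card : ℝ) := by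
      intro q hq
      rw [hG, mem_filter] at hq
      obtain ⟨hq1, hq2⟩ := hq
      have hpos : 0 < (J1.filter (fun j => q ∈ GD j)).card := by
        have : (0 : ℝ) < ((J1.filter (fun j => q ∈ GD j)).card : ℝ) := lt_of_lt_of_le (by positivity) hq2
        exact_mod_cast this
      obtain ⟨j, hj⟩ := card_pos.1 hpos
      rw [mem_filter] at hj
      obtain ⟨a1, a2, a3, _⟩ := hGDm j (mem_filter.1 hj.1).1 q hj.2
      refine ⟨a1, a2, a3, hq2.trans ?_⟩
      have : (J1.filter (fun j => q ∈ GD j)).card ≤ (FactorScales (min c0 c1 * cV) q (2 * t) N s).card := by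
        apply card_le_card
        intro i hi
        rw [mem_filter] at hi
        have hi1 := (mem_filter.1 hi.1).1
        unfold FactorScales
        rw [mem_filter]
        exact ⟨hi1, (hGDm i hi1 q hi.2).2.2.2⟩
      exact_mod_cast this
    obtain ⟨q, d, h1, h2, h3⟩ := hX₃ N n3 G (by
      intro q hq
      obtain ⟨a1, a2, a3, _⟩ := hGm q hq
      refine ⟨a1, ?_, a3.trans (Nat.sqrt_le_self N)⟩
      push_cast
      exact a2) hGsum
    refine ⟨q, d, h1, h2, ?_⟩
    intro i hi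
    obtain ⟨a1, a2, _, a4⟩ := hGm _ (h3 i hi)
    exact ⟨a1, a2, a4⟩

end Pool.Agent.Results.MP_33f996_nt.AllScales
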