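import Pool.Agent.Q138.PS.UN
import Pool.Agent.Q259.AS.Win

/-!
# Goldbach partitions with a prime in every long window of `(√(2n), n)`: the even numbers near `α P(k)`

Let `q ≥ 2`. Outside a set of real numbers of Hausdorff dimension at most `q / (q + 1 / (q 2 ^ (q - 1)))` (that is
`8 / 9` for `q = 2`) every `α > 0` has the following property: for ALL integral polynomials `P` of degree `q` with positive leading
coefficient and coefficients of size at most `N ^ η`, for all but `N / (log N) ^ U` of the `k ≤ N`, all the even numbers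
`m = 2 n` near `α P(k)` have the expected number of Goldbach partitions `m = p + (m - p)` with `p` in every window
`(u, v] ⊆ (√m, n)` with at least `m / log ^ B m` elements, and with `√m < p < n`.

Definitions used (in `Pool.Agent.H560R3.GB`): `C₂`: the twin prime constant `∏_{p > 2} (1 - 1 / (p - 1) ^ 2)`; `sing m`: the
singular series `2 C₂ ∏_{p ∣ m, p > 2} (p - 1) / (p - 2)`.
-/

set_option autoImplicit false

namespace Pool.Agent.Results.MP_33f996_nt.AlongRealMultiples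

open Filter Finset Pool.Agent.H560R3.GB
open Pool.Agent.Q138.PS
open Pool.Agent.Q259.AS (eng_windows)

/-- the number of the primes `p` in `(u, v]` for which `m - p` is prime -/
def pairs (m u v : ℕ) : ℕ := ((Ioc u v).filter fun p => p.Prime ∧ (m - p).Prime).card

/-- the number of the primes `p` with `√(2 n) < p < n` for which `2 n - p` is prime -/
noncomputable def partitions (n : ℕ) : ℕ :=
  ((range n).filter fun p : ℕ => Real.sqrt ((2 * n : ℕ) : ℝ) < p ∧ p.Prime ∧ (2 * n - p).Prime).card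

/-- With `m = 2 n`: some prime `p` with `√m < p < n` is such that `m - p` is prime, the number of these `p` is
`sing m * n / log ^ 2 m` up to a relative error of `ε`, and for all `√m ≤ u < v < n` with `v - u ≥ m / log ^ B m` the number of
the primes `p` in `(u, v]` for which `m - p` is prime is `sing m * (v - u) / log ^ 2 m` up to a relative error of `ε`. -/
def Holds (ε : ℝ) (B n : ℕ) : Prop :=
  (∃ p : ℕ, Real.sqrt ((2 * n : ℕ) : ℝ) < p ∧ p < n ∧ p.Prime ∧ (2 * n - p).Prime) ∧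
  |(partitions n : ℝ) - sing (2 * n) * n / Real.log ((2 * n : ℕ) : ℝ) ^ 2| ≤
    ε * (sing (2 * n) * n / Real.log ((2 * n : ℕ) : ℝ) ^ 2) ∧
  ∀ u v : ℕ, Real.sqrt ((2 * n : ℕ) : ℝ) ≤ u → u < v → v < n →
    ((2 * n : ℕ) : ℝ) / Real.log ((2 * n : ℕ) : ℝ) ^ B ≤ (v : ℝ) - u →
    |(pairs (2 * n) u v : ℝ) - sing (2 * n) * ((v : ℝ) - u) / Real.log ((2 * n : ℕ) : ℝ) ^ 2| ≤
      ε * (sing (2 * n) * ((v : ℝ) - u) / Real.log ((2 * n : ℕ) : ℝ) ^ 2)

/-- All the `n ≥ 1` with `|2 n - t| ≤ log t ^ A` have the property `Holds ε B`. -/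
def Good (ε : ℝ) (A B : ℕ) (t : ℝ) : Prop :=
  ∀ n : ℕ, 1 ≤ n → |((2 * n : ℕ) : ℝ) - t| ≤ Real.log t ^ A → Holds ε B n

open Classical in
/-- the number of the `1 ≤ k ≤ N` for which `α P(k)` is not `Good` -/
noncomputable def exceptions (ε : ℝ) (A B : ℕ) (α : ℝ) (P : Polynomial ℤ) (N : ℕ) : ℕ :=
  ((Icc 1 N).filter fun k : ℕ => ¬ Good ε A B (α * ((P.eval (k : ℤ) : ℤ) : ℝ))).card

theorem holds_of (e B : ℕ) : ∃ m₀ : ℕ, ∀ n : ℕ, m₀ ≤ 2 * n →
    Pool.Agent.W93.PG.WinP (1 / (4 * ((e : ℝ) + 1))) (B + 1) (2 * n) → Holds (1 / ((e : ℝ) + 1)) B n := by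
  have hev : ∀ᶠ m : ℕ in atTop, 1 ≤ Real.log (m : ℝ) ∧ (m : ℝ) / Real.log m ^ (B + 1) + 2 * Real.sqrt m + 4 ≤ m / 4 ∧
      (Real.sqrt m + 2) ≤ m / (16 * ((e : ℝ) + 1)) := by
    have h1 := (Real.tendsto_log_atTop.comp (tendsto_natCast_atTop_atTop (R := ℝ))).eventually_ge_atTop 16
    have h2 := (Real.tendsto_sqrt_atTop.comp (tendsto_natCast_atTop_atTop (R := ℝ))).eventually_ge_atTop (48 * ((e : ℝ) + 1))
    filter_upwards [h1, h2] with m g1 g2
    simp only [Function.comp] at g1 g2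
    have he : (0 : ℝ) ≤ e := Nat.cast_nonneg _
    have hm0 : (0 : ℝ) ≤ m := Nat.cast_nonneg _
    have hs : Real.sqrt m * Real.sqrt m = m := Real.mul_self_sqrt hm0
    have hs48 : (48 : ℝ) ≤ Real.sqrt m := by nlinarith
    refine ⟨by linarith, ?_, ?_⟩
    · have h3 : (m : ℝ) / Real.log m ^ (B + 1) ≤ m / 16 := by
        have : (16 : ℝ) ≤ Real.log m ^ (B + 1) := by
          calc (16 : ℝ) ≤ Real.log m := g1
            _ = Real.log m ^ 1 := (pow_one _).symm
            _ ≤ Real.log m ^ (B + 1) := pow_le_pow_right₀ (by linarith) (by omega)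
        gcongr
      nlinarith
    · rw [le_div_iff₀ (by positivity)]
      have : 48 * ((e : ℝ) + 1) * Real.sqrt m ≤ m := by nlinarith
      nlinarith
  obtain ⟨m₀, hm₀⟩ := eventually_atTop.1 hev
  refine ⟨max m₀ 8, fun n hn hwin => ?_⟩
  obtain ⟨hlog, hm1, hm2⟩ := hm₀ (2 * n) ((le_max_left _ _).trans hn)
  have hn4 : 4 ≤ n := by
    have := (le_max_right _ _).trans hn
    omega
  set m : ℕ := 2 * n with hm
  have he : (0 : ℝ) ≤ e := Nat.cast_nonneg _
  have hmn : (m : ℝ) = 2 * n := by rw [hm]; push_cast; ring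
  have hn0 : (4 : ℝ) ≤ n := by exact_mod_cast hn4
  have hs1 := Pool.Agent.W93.GB.one_le_sing m
  have hs0 : 0 < sing m := by linarith
  have hl0 : 0 < Real.log (m : ℝ) := by linarith
  set S : ℝ := sing m / Real.log m ^ 2 with hS
  have hS0 : 0 < S := by positivity
  have hεε : 1 / (4 * ((e : ℝ) + 1)) ≤ 1 / ((e : ℝ) + 1) := by
    refine one_div_le_one_div_of_le (by positivity) (by linarith)
  have hwin' : ∀ u v : ℕ, u < v → v ≤ m → (m : ℝ) / Real.log m ^ (B + 1) ≤ (v : ℝ) - u →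
      |(pairs m u v : ℝ) - S * ((v : ℝ) - u)| ≤ 1 / (4 * ((e : ℝ) + 1)) * (S * ((v : ℝ) - u)) := by
    intro u v huv hvm hlen
    have h1 := hwin u v huv hvm hlen
    have h2 : sing m * ((v : ℝ) - u) / Real.log m ^ 2 = S * ((v : ℝ) - u) := by
      rw [hS]
      ring
    rw [h2] at h1
    exact h1
  -- the main window
  set w : ℕ := Nat.sqrt m with hw
  have hw1 : (w : ℝ) ≤ Real.sqrt m := Real.nat_sqrt_le_real_sqrt
  have hw2 : Real.sqrt m < w + 1 := by
    have := Real.real_sqrt_lt_nat_sqrt_succ (a := m)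
    exact_mod_cast this
  have hsq : ∀ p : ℕ, Real.sqrt m < p ↔ w < p := by
    intro p
    constructor
    · intro h
      have : (w : ℝ) < p := lt_of_le_of_lt hw1 h
      exact_mod_cast this
    · intro h
      have : (w : ℝ) + 1 ≤ p := by exact_mod_cast h
      linarith
  have hmain : partitions n = pairs m w (n - 1) := by
    unfold partitions pairs
    congr 1
    ext p
    rw [mem_filter, mem_filter, mem_range, mem_Ioc, ← hm, hsq]
    constructor
    · rintro ⟨h1, h2, h3, h4⟩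
      exact ⟨⟨h2, by omega⟩, h3, h4⟩
    · rintro ⟨⟨h1, h2⟩, h3, h4⟩
      exact ⟨by omega, h1, h3, h4⟩
  have hn1 : ((n - 1 : ℕ) : ℝ) = n - 1 := by
    rw [Nat.cast_sub (by omega)]
    norm_num
  have hs00 : 0 ≤ Real.sqrt (m : ℝ) := Real.sqrt_nonneg _
  have hwn : w < n - 1 := by
    have : (w : ℝ) < ((n - 1 : ℕ) : ℝ) := by
      rw [hn1]
      have hd : 0 ≤ (m : ℝ) / Real.log m ^ (B + 1) := by positivity
      linarith
    exact_mod_cast this
  have hlen : (m : ℝ) / Real.log m ^ (B + 1) ≤ ((n - 1 : ℕ) : ℝ) - w := by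
    rw [hn1]
    have : (m : ℝ) / 4 ≤ n := by linarith
    linarith
  have h1 := hwin' w (n - 1) hwn (by omega) hlen
  rw [← hmain] at h1
  -- the length of the main window
  have hL : |(((n - 1 : ℕ) : ℝ) - w) - n| ≤ 1 / (4 * ((e : ℝ) + 1)) * n := by
    rw [hn1, show (n : ℝ) - 1 - w - n = -(w + 1) by ring, abs_neg, abs_of_nonneg (by positivity)]
    have h2 : (w : ℝ) + 1 ≤ m / (16 * ((e : ℝ) + 1)) := by linarith
    refine h2.trans ?_
    rw [hmn, div_le_iff₀ (by positivity)]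
    have : 1 / (4 * ((e : ℝ) + 1)) * n * (16 * ((e : ℝ) + 1)) = 4 * n := by
      field_simp
      ring
    rw [this]
    linarith
  have hL2 : ((n - 1 : ℕ) : ℝ) - w ≤ n := by
    rw [hn1]
    have : (0 : ℝ) ≤ w := Nat.cast_nonneg _
    linarith
  have h2 : |(partitions n : ℝ) - S * n| ≤ 1 / (2 * ((e : ℝ) + 1)) * (S * n) := by
    have e1 : (partitions n : ℝ) - S * n = ((partitions n : ℝ) - S * (((n - 1 : ℕ) : ℝ) - w)) + S * ((((n - 1 : ℕ) : ℝ) - w) - n) := by
      ring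
    rw [e1]
    refine (abs_add_le _ _).trans ?_
    rw [abs_mul, abs_of_pos hS0]
    have h3 : S * |(((n - 1 : ℕ) : ℝ) - w) - n| ≤ S * (1 / (4 * ((e : ℝ) + 1)) * n) := by gcongr
    have h4 : 1 / (4 * ((e : ℝ) + 1)) * (S * (((n - 1 : ℕ) : ℝ) - w)) ≤ 1 / (4 * ((e : ℝ) + 1)) * (S * n) := by gcongr
    have h5 : 1 / (2 * ((e : ℝ) + 1)) * (S * n) = 1 / (4 * ((e : ℝ) + 1)) * (S * n) + S * (1 / (4 * ((e : ℝ) + 1)) * n) := by
      field_simp
      ring
    rw [h5]
    exact add_le_add (h1.trans h4) h3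
  have hSn : S * n = sing m * n / Real.log m ^ 2 := by
    rw [hS]
    ring
  refine ⟨?_, ?_, ?_⟩
  · have h3 : (0 : ℝ) < partitions n := by
      have h4 : 1 / (2 * ((e : ℝ) + 1)) ≤ 1 / 2 := one_div_le_one_div_of_le (by norm_num) (by linarith)
      have h5 : 0 < S * n := by positivity
      have h6 := (abs_le.1 h2).1
      nlinarith
    have h4 : 0 < partitions n := by exact_mod_cast h3
    unfold partitions at h4
    rw [card_pos] at h4
    obtain ⟨p, hp⟩ := h4
    rw [mem_filter, mem_range] at hp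
    exact ⟨p, hp.2.1, hp.1, hp.2.2.1, hp.2.2.2⟩
  · rw [← hSn]
    refine h2.trans ?_
    have : 1 / (2 * ((e : ℝ) + 1)) ≤ 1 / ((e : ℝ) + 1) := one_div_le_one_div_of_le (by positivity) (by linarith)
    gcongr
  · intro u v hu huv hvn hlen'
    have h3 : (m : ℝ) / Real.log m ^ (B + 1) ≤ (v : ℝ) - u := by
      refine le_trans ?_ hlen'
      have : Real.log (m : ℝ) ^ B ≤ Real.log m ^ (B + 1) := pow_le_pow_right₀ hlog (by omega)
      gcongr
    have h4 := hwin' u v huv (by omega) h3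
    have h5 : sing m * ((v : ℝ) - u) / Real.log m ^ 2 = S * ((v : ℝ) - u) := by
      rw [hS]
      ring
    rw [h5]
    refine h4.trans ?_
    have h6 : (0 : ℝ) < (v : ℝ) - u := by
      have : (u : ℝ) < v := by exact_mod_cast huv
      linarith
    gcongr

/-- the exceptional even numbers -/
def Bd (m₀ : ℕ) (ε : ℝ) (B : ℕ) : Set ℤ :=
  {n : ℤ | 0 < n ∧ 2 ∣ n ∧ ¬ (m₀ ≤ n.toNat ∧ Pool.Agent.W93.PG.WinP ε B n.toNat)}

/-- **Theorem.** Let `q ≥ 2`. There is a set `E` of Hausdorff dimension at most `q / (q + 1 / (q 2 ^ (q - 1)))` such that for all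
`α > 0` outside `E`, all `ε > 0` and all `A, B, U` there is `η > 0` such that for all large `N` and ALL `P ∈ ℤ[X]` of degree
`q` with positive leading coefficient and coefficients of size at most `N ^ η`: for all but at most `N / (log N) ^ U` of the
`k ≤ N`, all `n` with `|2 n - α P(k)| ≤ log (α P(k)) ^ A` have the property `Holds ε B`. -/
theorem result (q : ℕ) (hq : 2 ≤ q) :
    ∃ E : Set ℝ, dimH E ≤ ENNReal.ofReal (q / (q + 1 / ((q : ℝ) * 2 ^ (q - 1)))) ∧
      ∀ α : ℝ, 0 < α → α ∉ E → ∀ ε : ℝ, 0 < ε → ∀ A B U : ℕ, ∃ η : ℝ, 0 < η ∧ ∀ᶠ N : ℕ in atTop,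
        ∀ P : Polynomial ℤ, P.natDegree = q → 0 < P.leadingCoeff → (∀ j, |((P.coeff j : ℤ) : ℝ)| ≤ (N : ℝ) ^ η) →
          (exceptions ε A B α P N : ℝ) ≤ N / Real.log N ^ U := by
  classical
  choose m₀ hm₀ using holds_of
  obtain ⟨E, hE, h⟩ := exc_real (ι := ℕ × ℕ × ℕ) q hq
    (fun i m => ∃ n ∈ Bd (m₀ i.1 i.2.2) (1 / (4 * ((i.1 : ℝ) + 1))) (i.2.2 + 1), |(n : ℝ) - m| ≤ Real.log m ^ (i.2.1 + 1))
    (fun i t => Good (1 / ((i.1 : ℝ) + 1)) i.2.1 i.2.2 t)
    (fun i U => near_count 1 (fun X => ⟨le_rfl, by simp⟩) (eng_windows (1 / (4 * ((i.1 : ℝ) + 1))) (by positivity)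
      (i.2.2 + 1) (m₀ i.1 i.2.2)) (i.2.1 + 1) U)
    (fun i => by
      obtain ⟨T, hT⟩ := near_floor 1 1 (by norm_num) i.2.1
      refine ⟨T, fun t ht0 htT hX n hn hd => ?_⟩
      have h1 := hT t ht0 htT ((2 * n : ℕ) : ℝ) (by rw [mul_one]; exact hd)
      rw [mul_one] at h1
      by_contra hcon
      refine hX ⟨((2 * n : ℕ) : ℤ), ⟨by exact_mod_cast (by omega : 0 < 2 * n), by push_cast; exact dvd_mul_right _ _,
        fun h2 => hcon ?_⟩, by exact_mod_cast h1⟩
      rw [Int.toNat_natCast] at h2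
      exact hm₀ i.1 i.2.2 n h2.1 h2.2)
  refine ⟨E, hE, fun α hα hαE ε hε A B U => ?_⟩
  obtain ⟨e, he⟩ := exists_nat_one_div_lt hε
  obtain ⟨η, hη, h1⟩ := h α hα hαE (e, A, B) U
  refine ⟨η, hη, ?_⟩
  filter_upwards [h1] with N g P hdeg hlead hco
  refine le_trans (Nat.cast_le.2 (card_le_card fun k hk => ?_)) (g P hdeg hlead hco)
  rw [mem_filter] at hk ⊢
  refine ⟨hk.1, fun h2 => hk.2 fun n hn hd => ?_⟩
  obtain ⟨k1, k2, k3⟩ := h2 n hn hd
  have hs := Pool.Agent.W93.GB.one_le_sing (2 * n)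
  have hs0 : 0 ≤ sing (2 * n) := by linarith
  refine ⟨k1, k2.trans (mul_le_mul_of_nonneg_right he.le (by positivity)), fun u v hu huv hvn hlen => ?_⟩
  refine (k3 u v hu huv hvn hlen).trans (mul_le_mul_of_nonneg_right he.le ?_)
  have h6 : (0 : ℝ) < (v : ℝ) - u := by
    have : (u : ℝ) < v := by exact_mod_cast huv
    linarith
  positivity

end Pool.Agent.Results.MP_33f996_nt.AlongRealMultiples
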