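import Pool.Agent.Q117.LF.Main3
import Pool.Agent.Q117.LF.Cnt
import Pool.Agent.Q117.LF.Rar
import Pool.Agent.Q117.LF.T43

/-!
MP_33f996_nt (Goldbach partitions `2 n = p + q` with `√(2n) < p < n`): every large even number is the sum of a prime and a product of at most two
primes, BOTH summands isolated, one of them at the scale of Rankin and the other at the scale of the average gap.
-/

set_option autoImplicit false

namespace Pool.Agent.Results.MP_33f996_nt.IsolatedSummands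

/-- the scale of Rankin -/
noncomputable def R (X : ℝ) : ℝ :=
  Real.log X * Real.log (Real.log X) * Real.log (Real.log (Real.log (Real.log X))) / (Real.log (Real.log (Real.log X))) ^ 2

/-- all prime factors of `m` are `> z` (so `0` is not rough) -/
def Rough (z : ℝ) (m : ℤ) : Prop := ∀ p : ℕ, p.Prime → (p : ℤ) ∣ m → z < p

/-- at most two prime factors (with multiplicity), all `> z` -/
def AtMostTwo (z : ℝ) (m : ℤ) : Prop := m.natAbs.primeFactorsList.length ≤ 2 ∧ Rough z m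

/-- every integer `a + s`, `0 < |s| ≤ D`, `s ∉ Z`, has a prime factor `≤ z` -/
def Isolated (D z : ℝ) (Z : Finset ℤ) (a : ℤ) : Prop := ∀ s : ℤ, |(s : ℝ)| ≤ D → s ≠ 0 → s ∉ Z → ¬ Rough z (a + s)

/-- `Z` has at most one element `s`, and then `2 n + s` has at least `c log n / loglog n` different prime factors `≤ log n` -/
def Exceptional (c : ℝ) (n : ℕ) (Z : Finset ℤ) : Prop := Z.card ≤ 1 ∧ ∀ s ∈ Z, s ≠ 0 ∧
  c * (Real.log n / Real.log (Real.log n)) ≤ (((2 * (n : ℤ) + s).natAbs.primeFactors.filter (fun p : ℕ => (p : ℝ) ≤ Real.log n)).card : ℝ)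

/-- the primes `p` of `(n/2, n)` (`e = 0`) or of `(n, 3n/2)` (`e = 1`) such that `2 n - p` has at most two prime factors, all large, the surroundings
`D` of `p` and `D'` of `2 n - p` containing no other rough integers, except possibly for the shifts in `Z`, `Z'` -/
def Partitions (t e n : ℕ) (D D' : ℝ) (Z Z' : Finset ℤ) : Set ℕ :=
  {p : ℕ | (1 + e) * n < 2 * p ∧ 2 * p < (2 + e) * n ∧ p.Prime ∧ AtMostTwo ((n : ℝ) ^ (1 / 9 : ℝ)) (2 * (n : ℤ) - p) ∧
    Rough ((n : ℝ) ^ (1 / (t : ℝ))) (2 * (n : ℤ) - p) ∧ Isolated D (Real.log n) Z p ∧ Isolated D' (Real.log n) Z' (2 * (n : ℤ) - p)}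

/-- one of the two windows is of the size of Rankin's gaps, the other one of the size of the average gap -/
def Windows (c : ℝ) (n : ℕ) (D D' : ℝ) : Prop :=
  D = c * R n ∧ D' = c * Real.log n ∨ D = c * Real.log n ∧ D' = c * R n

theorem toSet {t e n : ℕ} (he : e ≤ 1) {D D' b : ℝ} {Z Z' : Finset ℤ} (h : b ≤ ((Pool.Agent.Q117.LF.PtsG t e n D D' Z Z').card : ℝ)) :
    b ≤ ((Partitions t e n D D' Z Z').ncard : ℝ) := by
  refine h.trans ?_
  rw [← Set.ncard_coe_finset]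
  have hfin : (Partitions t e n D D' Z Z').Finite := by
    apply Set.Finite.subset (Set.finite_Iio (3 * n + 1))
    intro p hp
    have h2 := hp.2.1
    have : (2 + e) * n ≤ 3 * n := Nat.mul_le_mul_right n (by omega)
    simp only [Set.mem_Iio]
    omega
  have hsub : ((Pool.Agent.Q117.LF.PtsG t e n D D' Z Z' : Finset ℕ) : Set ℕ) ⊆ Partitions t e n D D' Z Z' := by
    intro p hp
    unfold Pool.Agent.Q117.LF.PtsG at hp
    simp only [Finset.coe_filter, Set.mem_setOf_eq] at hp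
    exact hp.2
  exact_mod_cast Set.ncard_le_ncard hsub hfin

theorem result : ∃ t : ℕ, 1 ≤ t ∧ ∃ c : ℝ, 0 < c ∧
    (∃ N : ℕ, ∀ n : ℕ, N ≤ n → ∀ D D' : ℝ, Windows c n D D' → ∀ e : ℕ, e ≤ 1 →
      ∃ Z Z' : Finset ℤ, Exceptional c n Z ∧ Exceptional c n Z' ∧ (n : ℝ) ^ (98 / 100 : ℝ) ≤ ((Partitions t e n D D' Z Z').ncard : ℝ)) ∧
    ∃ δ : ℝ, 0 < δ ∧ ∃ M0 : ℕ, ∀ M : ℕ, M0 ≤ M → ∃ E : Finset ℕ, (E.card : ℝ) ≤ (M : ℝ) ^ (1 - δ) ∧ ∀ n : ℕ, 1 ≤ n → n ≤ M → n ∉ E →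
      ∀ D D' : ℝ, Windows c n D D' → ∀ e : ℕ, e ≤ 1 →
        (n : ℝ) ^ (98 / 100 : ℝ) ≤ ((Partitions t e n D D' ∅ ∅).ncard : ℝ) := by
  obtain ⟨t, ht, c, hc, ⟨N, h1⟩, δ, hδ, M0, h2⟩ := Pool.Agent.Q117.LF.t43 Pool.Agent.Q117.LF.isoC Pool.Agent.Q117.LF.rar
  refine ⟨t, ht, c, hc, ⟨N, fun n hn D D' hD e he => ?_⟩, δ, hδ, M0, fun M hM => ?_⟩
  · obtain ⟨Z, Z', hZ, hZ', h⟩ := h1 n hn D D' hD e he
    exact ⟨Z, Z', hZ, hZ', toSet he h⟩
  · obtain ⟨E, hE, h⟩ := h2 M hM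
    exact ⟨E, hE, fun n hn1 hn2 hn3 D D' hD e he => toSet he (h n hn1 hn2 hn3 D D' hD e he)⟩

end Pool.Agent.Results.MP_33f996_nt.IsolatedSummands
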