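import Pool.Agent.Q138.PS.XJ
import Pool.Agent.Results.MP_33f996_nt.AlongRealMultiples

/-!
# Goldbach partitions with a prime in every long window of `(√(2n), n)`: all the even numbers near `c k^j α^k`

For almost every real number `α > 1` the following holds: for all algebraic numbers `c > 0`, all integers `j`, all real `D`,
`κ`, all `ε > 0`, all `B` and all large `k`, ALL the even numbers `m = 2 n` with `|m - c k^j α^k| ≤ D k^κ` have the expected
number of Goldbach partitions `m = p + (m - p)` with `p` in every window `(u, v] ⊆ (√m, n)` with at least `m / log ^ B m`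
elements, and with `√m < p < n`, up to a relative error of `ε`.

Definitions used (in `Pool.Agent.H560R3.GB`): `C₂`: the twin prime constant `∏_{p > 2} (1 - 1 / (p - 1) ^ 2)`; `sing m`: the
singular series `2 C₂ ∏_{p ∣ m, p > 2} (p - 1) / (p - 2)`.
-/

set_option autoImplicit false

namespace Pool.Agent.Results.MP_33f996_nt.NearPowers

open Filter Finset Pool.Agent.H560R3.GB MeasureTheory
open Pool.Agent.Q138.PS
open Pool.Agent.Q259.AS (eng_windows)
open Pool.Agent.Results.MP_33f996_nt.AlongRealMultiples (pairs partitions Holds holds_of Bd)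

/-- **Theorem.** For almost every real `α > 1`, all `ε > 0`, all `B`, all algebraic numbers `c > 0`, all integers `j`, all real
`D`, `κ` and all large `k`: all `n ≥ 1` with `|2 n - c k^j α^k| ≤ D k^κ` have the property `Holds ε B`. -/
theorem result : ∀ᵐ α : ℝ, 1 < α → ∀ ε : ℝ, 0 < ε → ∀ B : ℕ, ∀ c : ℝ, 0 < c → IsAlgebraic ℚ c → ∀ (j : ℤ) (D κ : ℝ),
    ∀ᶠ k : ℕ in atTop, ∀ n : ℕ, 1 ≤ n → ClosePow α c j D κ k (2 * n) → Holds ε B n := by
  classical
  choose m₀ hm₀ using holds_of
  have h0 := pow_ae_none (fun i : ℕ × ℕ => {m : ℕ | 1 ≤ m ∧ (m : ℤ) ∈ Bd (m₀ i.1 i.2) (1 / (4 * ((i.1 : ℝ) + 1))) (i.2 + 1)})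
    (fun i U => eng_log 1 (fun X => ⟨le_rfl, by simp⟩) (eng_windows (1 / (4 * ((i.1 : ℝ) + 1))) (by positivity)
      (i.2 + 1) (m₀ i.1 i.2)) U)
  filter_upwards [h0] with α h1 hα ε hε B c hc hca j D κ
  obtain ⟨e, he⟩ := exists_nat_one_div_lt hε
  filter_upwards [h1 hα (e, B) c hc hca j D κ] with k hk n hn hd
  have h2 : Holds (1 / ((e : ℝ) + 1)) B n := by
    by_contra hcon
    refine hk (2 * n) hd ⟨by omega, ⟨by exact_mod_cast (by omega : 0 < 2 * n), by push_cast; exact dvd_mul_right _ _,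
      fun h2 => hcon ?_⟩⟩
    rw [Int.toNat_natCast] at h2
    exact hm₀ e B n h2.1 h2.2
  obtain ⟨k1, k2, k3⟩ := h2
  have hs := Pool.Agent.W93.GB.one_le_sing (2 * n)
  have hs0 : 0 ≤ sing (2 * n) := by linarith
  refine ⟨k1, k2.trans (mul_le_mul_of_nonneg_right he.le (by positivity)), fun u v hu huv hvn hlen => ?_⟩
  refine (k3 u v hu huv hvn hlen).trans (mul_le_mul_of_nonneg_right he.le ?_)
  have h6 : (0 : ℝ) < (v : ℝ) - u := by
    have : (u : ℝ) < v := by exact_mod_cast huv
    linarith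
  positivity

end Pool.Agent.Results.MP_33f996_nt.NearPowers
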